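import Mathlib
import Pool.Agent.Q74.MAF.Main
import Pool.Agent.Q74.MAF.LogPsh

/-!
# The local complex Monge-Ampère flow cannot be started from `log ‖z‖`

Let `Ω` be the unit ball of `ℂⁿ`.  The function `u₀ = log ‖z‖` is plurisubharmonic on `ℂⁿ` and
vanishes on `∂Ω`.  The flow `∂_t u = log det (u_{j \bar k})` on `Ω × (0,T)` with boundary data `0` has
no solution `u` with `u_t → u₀` pointwise, however small `T` is.
-/

set_option autoImplicit false

open Metric Set Filter Topology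
open scoped ComplexOrder

namespace Pool.Agent.Results.MP_8f0dee_an.LogNormDatum

/-- `ℂⁿ` with its Hermitian norm. -/
abbrev Cn (n : ℕ) : Type := EuclideanSpace ℂ (Fin n)

/-- The Wirtinger derivative `∂f/∂z_j = (1/2) (∂f/∂x_j - i ∂f/∂y_j)`. -/
noncomputable def dz {n : ℕ} (j : Fin n) (f : Cn n → ℂ) (z : Cn n) : ℂ :=
  (fderiv ℝ f z (EuclideanSpace.single j (1 : ℂ)) -
    Complex.I * fderiv ℝ f z (Complex.I • EuclideanSpace.single j (1 : ℂ))) / 2

/-- The Wirtinger derivative `∂f/∂\bar z_k = (1/2) (∂f/∂x_k + i ∂f/∂y_k)`. -/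
noncomputable def dzbar {n : ℕ} (k : Fin n) (f : Cn n → ℂ) (z : Cn n) : ℂ :=
  (fderiv ℝ f z (EuclideanSpace.single k (1 : ℂ)) +
    Complex.I * fderiv ℝ f z (Complex.I • EuclideanSpace.single k (1 : ℂ))) / 2

/-- The complex Hessian `(∂²f/∂z_j∂\bar z_k)_{j,k}` of a real function. -/
noncomputable def complexHessian {n : ℕ} (f : Cn n → ℝ) (z : Cn n) : Matrix (Fin n) (Fin n) ℂ :=
  Matrix.of fun j k => dz j (dzbar k fun w => (f w : ℂ)) z

/-- Plurisubharmonic functions on an open set `Ω` of `ℂⁿ`, with values in `[-∞, ∞)`: upper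
semicontinuous, and for every closed complex disc `{a + ζ b : |ζ| ≤ 1} ⊆ Ω` the value at the centre
`a` is at most the mean over the boundary circle.  The mean of an upper semicontinuous function is
the infimum of the means of its continuous majorants, which is how it is expressed here. -/
def IsPSH {n : ℕ} (Ω : Set (Cn n)) (v : Cn n → EReal) : Prop :=
  UpperSemicontinuousOn v Ω ∧ (∀ z ∈ Ω, v z < ⊤) ∧
  ∀ a b : Cn n, (∀ ζ : ℂ, ‖ζ‖ ≤ 1 → a + ζ • b ∈ Ω) →
    ∀ φ : ℂ → ℝ, Continuous φ →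
      (∀ ζ : ℂ, ‖ζ‖ = 1 → v (a + ζ • b) ≤ ((φ ζ : ℝ) : EReal)) →
        v a ≤ ((Real.circleAverage φ 0 1 : ℝ) : EReal)

/-- `u` (written `u t z`) solves the flow on `Ω × (0,T)` with initial datum `u₀` and boundary data
`φ`: it is continuous on `\bar Ω × (0,T)` and of class `C²` on `Ω × (0,T)` (this is weaker than
`u ∈ C^∞(\bar Ω × (0,T))`), every `u t` is strictly plurisubharmonic in `Ω`, the equation
`∂_t u = log det (∂²u/∂z_j∂\bar z_k)` holds, `u = φ` on `∂Ω × (0,T)`, and `u t z → u₀ z` in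
`[-∞, ∞)` as `t → 0+` for every `z` in `\bar Ω`. -/
structure IsFlowSolution {n : ℕ} (Ω : Set (Cn n)) (T : ℝ) (u₀ : Cn n → EReal)
    (φ : ℝ → Cn n → ℝ) (u : ℝ → Cn n → ℝ) : Prop where
  continuousOn : ContinuousOn (fun p : ℝ × Cn n => u p.1 p.2) (Ioo 0 T ×ˢ closure Ω)
  contDiffOn : ContDiffOn ℝ 2 (fun p : ℝ × Cn n => u p.1 p.2) (Ioo 0 T ×ˢ Ω)
  strictPsh : ∀ t ∈ Ioo 0 T, ∀ z ∈ Ω, (complexHessian (u t) z).PosDef
  flow : ∀ t ∈ Ioo 0 T, ∀ z ∈ Ω,
    deriv (fun s => u s z) t = Real.log (complexHessian (u t) z).det.re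
  boundary : ∀ t ∈ Ioo 0 T, ∀ z ∈ frontier Ω, u t z = φ t z
  initial : ∀ z ∈ closure Ω, Tendsto (fun t => (u t z : EReal)) (𝓝[>] 0) (𝓝 (u₀ z))

/-- The initial datum `log ‖z‖`, equal to `-∞` at the origin. -/
noncomputable def logNorm (n : ℕ) (z : Cn n) : EReal := if z = 0 then ⊥ else (Real.log ‖z‖ : ℝ)

/-- **A negative answer to Q1, in every dimension.**  For every `n ≥ 1` and every `T > 0`: the
function `log ‖z‖` is plurisubharmonic on `ℂⁿ`, it is `0` on the boundary of the unit ball, and the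
flow in the unit ball with initial datum `log ‖z‖` and boundary data `0` has no solution on
`(0,T)`. -/
theorem result (n : ℕ) (hn : 1 ≤ n) (T : ℝ) (hT : 0 < T) :
    IsPSH univ (logNorm n) ∧
    (∀ z ∈ frontier (ball (0 : Cn n) 1), logNorm n z = ((0 : ℝ) : EReal)) ∧
    ¬ ∃ u : ℝ → Cn n → ℝ,
      IsFlowSolution (ball (0 : Cn n) 1) T (logNorm n) (fun _ _ => 0) u := by
  refine ⟨⟨?_, ?_, ?_⟩, ?_, ?_⟩
  · exact Q74.MAF.logNorm_usc.upperSemicontinuousOn _
  · intro z _
    rw [logNorm]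
    split_ifs
    · exact bot_lt_top
    · exact EReal.coe_lt_top _
  · intro a b _ φ hφ h
    exact Q74.MAF.logNorm_submean a b φ hφ h
  · intro z hz
    rw [frontier_ball _ one_ne_zero, mem_sphere_zero_iff_norm] at hz
    have h0 : z ≠ 0 := by
      intro h
      rw [h, norm_zero] at hz
      exact zero_ne_one hz
    rw [logNorm, if_neg h0, hz, Real.log_one]
  · rintro ⟨u, hu⟩
    have hcl : closure (ball (0 : Cn n) 1) = closedBall 0 1 := closure_ball _ one_ne_zero
    have hfr : frontier (ball (0 : Cn n) 1) = sphere 0 1 := frontier_ball _ one_ne_zero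
    refine Q74.MAF.no_solution hn hT u ?_ hu.contDiffOn hu.strictPsh hu.flow ?_ ?_
    · rw [← hcl]
      exact hu.continuousOn
    · intro t ht z hz
      exact hu.boundary t ht z (by rw [hfr]; exact hz)
    · intro z hz
      exact hu.initial z (subset_closure hz)

end Pool.Agent.Results.MP_8f0dee_an.LogNormDatum
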